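import Mathlib
import Pool.Agent.H.MP_3f5b22_an.A
import Pool.Agent.H.MP_3f5b22_an.B

open Polynomial

namespace Pool.Agent.Results.MP_3f5b22_an.Cube

/-- vertices of the universal cover: non-backtracking edge words -/
abbrev Vtx := {l : List (Fin 3) // l.IsChain (· ≠ ·)}
noncomputable abbrev L2 (V : Type) := lp (fun _ : V => ℂ) 2
abbrev Bd (K : Type) [NormedAddCommGroup K] [InnerProductSpace ℂ K] := K →L[ℂ] K
def ap {K : Type} [NormedAddCommGroup K] [InnerProductSpace ℂ K] (H : Bd K) (u : K) : K := H u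
noncomputable abbrev Op (V : Type) := Bd (L2 V)
def Acts {V : Type} (H : Op V) (r : (V → ℂ) → (V → ℂ) → Prop) : Prop := ∀ u : L2 V, r u (ap H u : L2 V)

def nb (i : Fin 3) (x : Vtx) : Vtx :=
  if h : x.1.head? = some i then ⟨x.1.tail, x.2.tail⟩
  else ⟨i :: x.1, List.IsChain.cons x.2 (fun y hy e => h (by rw [e]; exact hy))⟩

def rt : Vtx := ⟨[], List.IsChain.nil⟩

def Jac (a : Fin 3 → ℝ) (u w : Vtx → ℂ) : Prop := ∀ x, w x = ∑ i, (a i : ℂ) * u (nb i x)

noncomputable def shift {A : Type} [CStarAlgebra A] (H : A) (z : ℂ) : A := H - z • 1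

def Inv {A : Type} [CStarAlgebra A] (H : A) (z : ℂ) : Prop := IsUnit (shift H z)

noncomputable def res {A : Type} [CStarAlgebra A] (H : A) (z : ℂ) : A := Ring.inverse (shift H z)

def SA {A : Type} [CStarAlgebra A] (H : A) : Prop := IsSelfAdjoint H

noncomputable def diag {V : Type} [DecidableEq V] (X : Op V) (y : V) : ℂ := ap X (lp.single 2 y 1) y

noncomputable def green (H : Op Vtx) (z : ℂ) : ℂ := diag (res H z) rt

noncomputable def overC (P : ℂ[X][X]) : (RatFunc ℂ)[X] := P.map (algebraMap ℂ[X] (RatFunc ℂ))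

def RamOver {R : Type} [CommRing R] (p : Ideal R) (B : Type) [CommRing B] [Algebra R B] (e : ℕ) : Prop :=
  ∃ Q : Ideal B, Q.IsMaximal ∧ Q.LiesOver p ∧ e ≤ Q.ramificationIdx R

def RamIn {R : Type} [CommRing R] (p : Ideal R) (K : Type) [CommRing K] [Algebra R K] (e : ℕ) : Prop :=
  RamOver p (integralClosure R K) e

def RamRoot {R F : Type} [CommRing R] [Field F] [Algebra R F] (p : Ideal R) (Q : F[X]) (e : ℕ) : Prop :=
  RamIn p (AdjoinRoot Q) e

def Green (H : Op Vtx) (P : ℂ[X][X]) : Prop :=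
  ∀ z : ℂ, z.im ≠ 0 → Inv H z ∧ P.evalEval z (green H z) = 0

open Pool.Agent.H.MP_3f5b22_an in
theorem result : ∃ (a : Fin 3 → ℝ) (H : Op Vtx) (P : ℂ[X][X]), (∀ i, 0 < a i) ∧ Acts H (Jac a) ∧ SA H ∧
    Green H P ∧ Irreducible (overC P) ∧ RamRoot (Ideal.span {(X : ℂ[X])}) (overC P) 3 := by
  refine ⟨a, H, P, fun i => ?_, fun u x => H_apply u x, H_sa, fun z hz => ?_, P_irr, ram⟩
  · fin_cases i <;> simp [a]
  · have hu : IsUnit (shift H z) := by
      have : z ∉ spectrum ℂ H := fun h => hz (by rw [H_sa.mem_spectrum_eq_re h]; simp)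
      rw [spectrum.notMem_iff, Algebra.algebraMap_eq_smul_one] at this
      have h2 := this.neg
      rwa [neg_sub] at h2
    refine ⟨hu, ?_⟩
    set u : L2 Vtx := Ring.inverse (shift H z) (lp.single 2 rt 1) with hud
    have e : shift H z u = lp.single 2 rt 1 := by
      rw [hud, ← ContinuousLinearMap.mul_apply, Ring.mul_inverse_cancel _ hu]; rfl
    have e2 : ∀ x, H u x - z * u x = (lp.single 2 rt 1 : L2 Vtx) x := fun x => by rw [← e]; rfl
    have := cubic hz u (fun x hx => by
        have := e2 x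
        rw [lp.single_apply, Pi.single_eq_of_ne (show x ≠ rt from hx)] at this
        exact sub_eq_zero.1 this) (by
        have := e2 rt
        rw [lp.single_apply, Pi.single_eq_same] at this
        exact (sub_eq_iff_eq_add'.1 this))
    have g : green H z = u Pool.Agent.H.MP_3f5b22_an.rt := rfl
    rw [g, ← this]
    simp [P, evalEval_add, evalEval_sub, evalEval_mul, evalEval_pow, evalEval_C, evalEval_X]

end Pool.Agent.Results.MP_3f5b22_an.Cube
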